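import Mathlib

namespace Pool.Agent.Results.MP_b3b2bb_nt.Eigen
open Finset Polynomial

/-- `S a x u v n` is `R_{n-2}` for the recurrence `R_n = R_{n-1} + a x^n R_{n-2}` with
`R_{-2} = u`, `R_{-1} = v`. -/
noncomputable def S (a x u v : ℂ) : ℕ → ℂ
  | 0 => u
  | 1 => v
  | n + 2 => S a x u v (n + 1) + a * x ^ n * S a x u v n

/-- `P_n`: `P_{-2} = 0`, `P_{-1} = 1`, so `P_0 = 1`. -/
noncomputable def P (a x : ℂ) (n : ℕ) : ℂ := S a x 0 1 (n + 2)

/-- `Q_n`: `Q_{-2} = Q_{-1} = 1`, so `Q_0 = 1 + a`. -/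
noncomputable def Q (a x : ℂ) (n : ℕ) : ℂ := S a x 1 1 (n + 2)

lemma S2 (a x u v : ℂ) (n : ℕ) :
    S a x u v (n + 2) = S a x u v (n + 1) + a * x ^ n * S a x u v n := rfl

lemma lin (a x u v : ℂ) (n : ℕ) : S a x u v n = u * S a x 1 0 n + v * S a x 0 1 n := by
  induction n using Nat.twoStepInduction with
  | zero => simp [S]
  | one => simp [S]
  | more n h1 h2 => rw [S2, S2, S2, h1, h2]; ring

lemma shift (a x u v : ℂ) (r n : ℕ) :
    S a x u v (n + r) = S (a * x ^ r) x (S a x u v r) (S a x u v (r + 1)) n := by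
  induction n using Nat.twoStepInduction with
  | zero => simp [S]
  | one => simp [S, add_comm]
  | more n h1 h2 =>
    rw [S2, ← h1, ← h2, show n + 2 + r = n + r + 2 by ring, S2, show n + 1 + r = n + r + 1 by ring]
    ring

lemma wr (a x : ℂ) (n : ℕ) : S a x 1 0 n * S a x 0 1 (n + 1) - S a x 0 1 n * S a x 1 0 (n + 1) =
    ∏ i ∈ range n, (-(a * x ^ i)) := by
  induction n with
  | zero => simp [S]
  | succ n ih => rw [prod_range_succ, ← ih, S2, S2]; ring

lemma poly (x u v : ℂ) (n : ℕ) : ∃ p : ℂ[X], p.natDegree ≤ n / 2 ∧ ∀ b, p.eval b = S b x u v n := by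
  induction n using Nat.twoStepInduction with
  | zero => exact ⟨C u, by simp, by simp [S]⟩
  | one => exact ⟨C v, by simp, by simp [S]⟩
  | more n h1 h2 =>
    obtain ⟨p, p1, p2⟩ := h1
    obtain ⟨q, q1, q2⟩ := h2
    refine ⟨q + C (x ^ n) * (X * p), (natDegree_add_le _ _).trans (max_le (by omega)
      ((natDegree_C_mul_le _ _).trans (natDegree_mul_le.trans ?_))), fun b => ?_⟩
    · rw [natDegree_X]; omega
    · rw [S2, ← p2, ← q2]; simp; ring

lemma trace {x : ℂ} {m : ℕ} (hm : 3 ≤ m) (hx : IsPrimitiveRoot x m) (i : ℕ) :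
    S (x ^ i) x 1 0 m + S (x ^ i) x 0 1 (m + 1) = 1 := by
  obtain ⟨k, rfl⟩ : ∃ k, m = k + 1 := ⟨m - 1, by omega⟩
  have h1 : ∀ b, S (b * x) x 1 0 (k + 1) + S (b * x) x 0 1 (k + 1 + 1) =
      S b x 1 0 (k + 1) + S b x 0 1 (k + 1 + 1) := fun b => by
    rw [shift b x 1 0 1 k, shift b x 0 1 1 (k + 1), lin _ _ (S b x 1 0 1), lin _ _ (S b x 0 1 1),
      S2 (b * x)]
    have := hx.pow_eq_one
    simp only [S, pow_one]
    linear_combination b * S (b * x) x 0 1 k * this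
  have h2 : ∀ i, S (x ^ i) x 1 0 (k + 1) + S (x ^ i) x 0 1 (k + 1 + 1) =
      S 1 x 1 0 (k + 1) + S 1 x 0 1 (k + 1 + 1) := fun i => by
    induction i with
    | zero => simp
    | succ i ih => rw [pow_succ, h1, ih]
  obtain ⟨p, p1, p2⟩ := poly x 1 0 (k + 1)
  obtain ⟨q, q1, q2⟩ := poly x 0 1 (k + 1 + 1)
  have h3 : p + q - C (S 1 x 1 0 (k + 1) + S 1 x 0 1 (k + 1 + 1)) = 0 := by
    refine eq_zero_of_natDegree_lt_card_of_eval_eq_zero _ (f := fun i : Fin (k + 1) => x ^ i.1)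
      (fun i j e => Fin.ext (hx.pow_inj i.2 j.2 e)) (fun i => ?_) ?_
    · simp [p2, q2, h2]
    · rw [natDegree_sub_C, Fintype.card_fin]
      exact (natDegree_add_le _ _).trans_lt (max_lt (by omega) (by omega))
  have h4 : ∀ u v n, S 0 x u v (n + 1) = v := fun u v n => by
    induction n with
    | zero => rfl
    | succ n ih => rw [S2, ih]; simp
  have := congrArg (eval 0) h3
  simp only [eval_sub, eval_add, p2, q2, eval_C, h4, eval_zero] at this
  rw [h2]; linear_combination -this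

noncomputable def B (q : ℂ) : ℕ → ℤ → ℂ
  | 0, k => if k = 0 then 1 else 0
  | n + 1, k => B q n (k - 1) + q ^ k * B q n k

lemma B1 (q : ℂ) (n : ℕ) (k : ℤ) : B q (n + 1) k = B q n (k - 1) + q ^ k * B q n k := rfl

lemma B0 (q : ℂ) (n : ℕ) (k : ℤ) (h : k < 0 ∨ n < k) : B q n k = 0 := by
  induction n generalizing k with
  | zero => exact if_neg (by omega)
  | succ n ih => rw [B1, ih _ (by omega), ih _ (by omega)]; simp

variable {q : ℂ}

lemma B2 (hq : q ≠ 0) (n : ℕ) (k : ℤ) :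
    B q (n + 1) k = q ^ (n + 1 - k) * B q n (k - 1) + B q n k := by
  induction n generalizing k with
  | zero =>
    simp only [B]
    by_cases h : k = 0
    · simp [h]
    · by_cases h' : k = 1
      · simp [h']
      · simp [h, sub_ne_zero.2 h']
  | succ n ih =>
    have e1 : q ^ (((n + 1 : ℕ) : ℤ) + 1 - k) = q ^ ((n : ℤ) + 1 - (k - 1)) := by
      congr 1; push_cast; ring
    have e2 : q ^ k * q ^ ((n : ℤ) + 1 - k) = q ^ ((n : ℤ) + 1 - (k - 1)) * q ^ (k - 1) := by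
      rw [← zpow_add₀ hq, ← zpow_add₀ hq]; congr 1; ring
    have h1 := ih (k - 1)
    have h2 := ih k
    have h3 := B1 q n (k - 1)
    have h4 := B1 q n k
    rw [B1 q (n + 1) k, e1]
    linear_combination h1 + q ^ k * h2 - q ^ ((n : ℤ) + 1 - (k - 1)) * h3 - h4 + B q n (k - 1) * e2

noncomputable def c (q : ℂ) (j : ℤ) : ℂ := (-1) ^ j * q ^ (j * (5 * j + 1) / 2)

lemma c_succ (hq : q ≠ 0) (j : ℤ) : c q (j + 1) = -(q ^ (5 * j + 3) * c q j) := by
  have : (j + 1) * (5 * (j + 1) + 1) / 2 = j * (5 * j + 1) / 2 + (5 * j + 3) := by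
    rw [← Int.add_mul_ediv_right _ _ two_ne_zero]; congr 1; ring
  rw [c, c, this, zpow_add₀ hq, zpow_add_one₀ (by norm_num)]; ring

noncomputable def t (q : ℂ) (n : ℕ) (j : ℤ) : ℂ := c q j * B q n ((n - 5 * j) / 2)

lemma tel (N : ℕ) (f g : ℤ → ℂ) (h : ∀ j, f j = g j - g (j + 1)) (h1 : g (-N) = 0)
    (h2 : g N = 0) : ∑ i ∈ range (2 * N), f (i - N) = 0 := by
  have := sum_range_sub' (fun i : ℕ => g (i - N)) (2 * N)
  simp only [Nat.cast_zero, zero_sub, h1, show ((2 * N : ℕ) : ℤ) - N = N by push_cast; ring,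
    h2, sub_zero] at this
  rw [← this]
  refine sum_congr rfl fun i _ => ?_
  rw [h]; congr 2; push_cast; ring

lemma schur (hq : q ≠ 0) (N n : ℕ) (hn : n < N) :
    ∑ i ∈ range (2 * N), t q n (i - N) = S 1 q 0 1 (n + 1) := by
  induction n using Nat.twoStepInduction with
  | zero =>
    rw [sum_eq_single N (fun i _ h => by rw [t, B0 _ _ _ (by omega), mul_zero]) (by simp; omega)]
    simp [t, c, B, S]
  | one =>
    rw [sum_eq_single N (fun i _ h => by rw [t, B0 _ _ _ (by omega), mul_zero]) (by simp; omega)]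
    simp [t, c, B, S]
  | more n h1 h2 =>
    rw [S2, ← h1 (by omega), ← h2 (by omega), one_mul, mul_sum, ← sum_add_distrib, ← sub_eq_zero,
      ← sum_sub_distrib]
    refine tel N (fun j => t q (n + 2) j - (t q (n + 1) j + q ^ (n + 1) * t q n j))
      (fun j => if (n - 5 * j) % 2 = 0 then
        c q j * q ^ ((n - 5 * j) / 2 + 1) * B q n ((n - 5 * j) / 2 + 1) else 0) (fun j => ?_)
      (by rw [B0 _ _ _ (by omega)]; simp)
      (by rw [B0 _ _ _ (by omega)]; simp)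
    have e0 : ∀ k : ℤ, q ^ k * q ^ ((n : ℤ) + 1 - k) = q ^ (n + 1) := fun k => by
      rw [← zpow_add₀ hq, ← zpow_natCast]; congr 1; push_cast; ring
    rcases Int.even_or_odd' ((n : ℤ) - 5 * j) with ⟨k, hk | hk⟩
    · simp only [t]
      rw [if_pos (by omega), if_neg (by omega), show ((n : ℤ) - 5 * j) / 2 = k by omega,
        show (((n + 1 : ℕ) : ℤ) - 5 * j) / 2 = k by omega,
        show (((n + 2 : ℕ) : ℤ) - 5 * j) / 2 = k + 1 by omega, B1, B2 hq n (k + 1),
        add_sub_cancel_right]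
      linear_combination c q j * B q n k * e0 (k + 1)
    · simp only [t]
      have e1 : q ^ (((n + 1 : ℕ) : ℤ) + 1 - (k + 1)) = q ^ (5 * j + 3) * q ^ (k - 1) := by
        rw [← zpow_add₀ hq]; congr 1; push_cast; omega
      have e2 : q ^ (((n + 1 : ℕ) : ℤ) + 1 - (k + 1)) = q ^ ((n : ℤ) + 1 - k) := by
        congr 1; push_cast; ring
      rw [if_neg (by omega), if_pos (by omega), show ((n : ℤ) - 5 * j) / 2 = k by omega,
        show (((n + 1 : ℕ) : ℤ) - 5 * j) / 2 = k + 1 by omega,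
        show (((n + 2 : ℕ) : ℤ) - 5 * j) / 2 = k + 1 by omega,
        show ((n : ℤ) - 5 * (j + 1)) / 2 + 1 = k - 1 by omega, B2 hq (n + 1), c_succ hq,
        add_sub_cancel_right, B1 q n k]
      linear_combination c q j * B q n k * e0 k + c q j * B q n (k - 1) * e1 +
        c q j * B q n k * q ^ k * e2

lemma van {m : ℕ} (hm : 3 ≤ m) (h5 : 5 ∣ m) (hx : IsPrimitiveRoot q m) : S 1 q 0 1 m = 0 := by
  obtain ⟨n, rfl⟩ : ∃ n, m = n + 1 := ⟨m - 1, by omega⟩
  have hq : q ≠ 0 := hx.ne_zero (by omega)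
  have h1 : ∀ i : ℤ, i % 5 ≠ 0 → B q n (i - 1) + q ^ i * B q n i = 0 := fun i hi => by
    have h2 : q ^ i ≠ 1 := fun h => by
      have := (Int.natCast_dvd_natCast.2 h5).trans ((hx.zpow_eq_one_iff_dvd i).1 h)
      omega
    have h3 : q ^ i * q ^ ((n : ℤ) + 1 - i) = 1 := by
      rw [← zpow_add₀ hq, hx.zpow_eq_one_iff_dvd]; simp
    refine mul_left_cancel₀ (sub_ne_zero.2 h2) ?_
    linear_combination q ^ i * (B1 q n i).symm.trans (B2 hq n i) + B q n (i - 1) * h3
  rw [← schur hq (n + 1) n (by omega)]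
  refine tel _ _ (fun j => if (n - 5 * j) % 2 = 0 then t q n j else 0) (fun j => ?_)
    (by simp only [t]; rw [B0 _ _ _ (by omega)]; simp)
    (by simp only [t]; rw [B0 _ _ _ (by omega)]; simp)
  rcases Int.even_or_odd' ((n : ℤ) - 5 * j) with ⟨k, hk | hk⟩
  · rw [if_pos (by omega), if_neg (by omega), sub_zero]
  · rw [if_neg (by omega), if_pos (by omega), t, t, show ((n : ℤ) - 5 * j) / 2 = k by omega,
      show ((n : ℤ) - 5 * (j + 1)) / 2 = k - 1 - 1 by omega, c_succ hq]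
    have h2 := h1 k (by omega)
    have h3 := h1 (k - 1) (by omega)
    have h4 : q ^ (5 * j + 3) * q ^ (k - 1) * q ^ k = 1 := by
      rw [← zpow_add₀ hq, ← zpow_add₀ hq, hx.zpow_eq_one_iff_dvd]
      exact ⟨1, by push_cast; omega⟩
    linear_combination c q j * q ^ (5 * j + 3) * q ^ (k - 1) * h2 - c q j * q ^ (5 * j + 3) * h3
      - c q j * B q n k * h4

lemma van2 {m : ℕ} (hm : 3 ≤ m) (h5 : 5 ∣ m) (hx : IsPrimitiveRoot q m) : S q q 0 1 m = 0 := by
  have hq : q ≠ 0 := hx.ne_zero (by omega)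
  have h : ∀ n i, n + i + 1 = m → S q q 0 1 (n + 1) * S 1 q⁻¹ 0 1 (i + 1) +
      q * q ^ n * S q q 0 1 n * S 1 q⁻¹ 0 1 i = 0 := by
    intro n
    induction n with
    | zero => intro i hi; simpa [S, ← hi] using van hm h5 hx.inv
    | succ n ih =>
      intro i hi
      have h1 := ih (i + 1) (by omega)
      have h2 : q * q ^ (n + 1) = q⁻¹ ^ i := by
        rw [inv_pow, ← pow_succ']
        exact eq_inv_of_mul_eq_one_left (by
          rw [← pow_add, show n + 1 + 1 + i = m by omega]; exact hx.pow_eq_one)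
      rw [S2] at h1 ⊢
      rw [h2]
      linear_combination h1
  have := h (m - 1) 0 (by omega)
  rw [show m - 1 + 1 = m by omega] at this
  simpa [S] using this

theorem result (k m : ℕ) (j l l' : ℤ) (_hk : 1 ≤ k) (hm : 3 ≤ m) (_hj : IsCoprime j k)
    (hl : IsCoprime l m) (h5 : 5 ∣ m) (hkm : k ∣ m) (hl' : l * l' ≡ 1 [ZMOD m]) (a x : ℂ)
    (ha : a = Complex.exp (2 * Real.pi * Complex.I * (j / k)))
    (hx : x = Complex.exp (2 * Real.pi * Complex.I * (l / m))) (r : ℕ)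
    (hr : (r : ℤ) ≡ -((m / k : ℕ) * j * l') - 1 [ZMOD m] ∨
      (r : ℤ) ≡ -((m / k : ℕ) * j * l') - 2 [ZMOD m]) :
    ![P a x r, Q a x r] ≠ 0 ∧ ∃ μ : ℂ, (μ = (1 + √5) / 2 ∨ μ = (1 - √5) / 2) ∧
      (!![a * x ^ (m - 1) * P a x (m - 3), P a x (m - 2);
        a * x ^ (m - 1) * Q a x (m - 3), Q a x (m - 2)]).mulVec ![P a x r, Q a x r] =
        μ • ![P a x r, Q a x r] := by
  have hp : IsPrimitiveRoot x m := hx ▸ Complex.isPrimitiveRoot_exp_of_isCoprime l m (by omega) hl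
  have hx0 : x ≠ 0 := hp.ne_zero (by omega)
  have ha0 : a ≠ 0 := ha ▸ Complex.exp_ne_zero _
  obtain ⟨d, rfl⟩ := hkm
  have hk0 : k ≠ 0 := by omega
  have hd0 : d ≠ 0 := by rintro rfl; omega
  rw [Nat.mul_div_cancel_left _ (by omega)] at hr
  have hax : a = x ^ ((d : ℤ) * j * l') := by
    obtain ⟨z, hz⟩ := hl'.symm.dvd
    have hz' : (l : ℂ) * l' - 1 = k * d * z := by exact_mod_cast hz
    rw [ha, hx, ← Complex.exp_int_mul, Complex.exp_eq_exp_iff_exists_int]
    refine ⟨-(d * j * z), ?_⟩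
    push_cast
    field_simp
    linear_combination (-(j : ℂ)) * hz'
  obtain ⟨i, hi, hv⟩ : ∃ i : ℕ, a * x ^ (r + 2) = x ^ i ∧ S (x ^ i) x 0 1 (k * d) = 0 := by
    have : ∀ i : ℕ, (r : ℤ) ≡ -(d * j * l') + i - 2 [ZMOD (k * d : ℕ)] →
        a * x ^ (r + 2) = x ^ i := fun i h => by
      obtain ⟨z, hz⟩ := h.symm.dvd
      rw [hax, ← zpow_natCast, ← zpow_add₀ hx0, ← zpow_natCast x i,
        show (d : ℤ) * j * l' + ((r + 2 : ℕ) : ℤ) = (k * d : ℕ) * z + i by
          rw [← hz]; push_cast; ring,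
        zpow_add₀ hx0, (hp.zpow_eq_one_iff_dvd _).2 (dvd_mul_right _ _), one_mul]
    rcases hr with h | h
    · exact ⟨1, this 1 (by convert h using 1; push_cast; ring), by simpa using van2 hm h5 hp⟩
    · exact ⟨0, this 0 (by simpa using h), by simpa using van hm h5 hp⟩
  generalize k * d = m at *
  refine ⟨fun h => ?_, S (x ^ i) x 1 0 m, ?_, ?_⟩
  · have h1 : S a x 0 1 (r + 2) = 0 := congrFun h 0
    have h2 : S a x 1 1 (r + 2) = 0 := congrFun h 1
    have h3 := wr a x (r + 2)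
    rw [lin, h1] at h2
    rw [h1, show S a x 1 0 (r + 2) = 0 by simpa using h2, zero_mul, zero_mul, sub_zero] at h3
    exact prod_ne_zero_iff.2 (fun n _ => neg_ne_zero.2 (mul_ne_zero ha0 (pow_ne_zero _ hx0))) h3.symm
  · have h1 := trace hm hp i
    have h2 := wr (x ^ i) x m
    have h3 := congrArg (eval 0) (X_pow_sub_C_eq_prod hp (α := x ^ i) (a := 1) (by omega)
      (by rw [← pow_mul, mul_comm, pow_mul, hp.pow_eq_one, one_pow]))
    simp only [eval_sub, eval_pow, eval_X, eval_C, eval_prod, zero_pow (by omega : m ≠ 0),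
      zero_sub, mul_comm _ (x ^ i)] at h3
    rw [← h3, hv] at h2
    have h4 : ((√5 : ℝ) : ℂ) * (√5 : ℝ) = 5 := by
      exact_mod_cast Real.mul_self_sqrt (by norm_num : (0 : ℝ) ≤ 5)
    rw [← sub_eq_zero, ← sub_eq_zero (a := S _ _ _ _ _), ← mul_eq_zero]
    linear_combination S (x ^ i) x 1 0 m * h1 - h2 - h4 / 4
  · obtain ⟨n, rfl⟩ : ∃ n, m = n + 3 := ⟨m - 3, by omega⟩
    have h1 : ∀ u v, a * x ^ (n + 2) * S a x u v (n + 2) * S a x 0 1 (r + 2) +
        S a x u v (n + 3) * S a x 1 1 (r + 2) = S (x ^ i) x 1 0 (n + 3) * S a x u v (r + 2) := by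
      intro u v
      have e1 := shift a x u v (n + 3) (r + 2)
      have e2 := shift a x u v (r + 2) (n + 3)
      rw [hp.pow_eq_one, mul_one, lin a x (S a x u v (n + 3)), S2 a x u v (n + 2)] at e1
      rw [hi, lin (x ^ i), hv, add_comm (n + 3), e1] at e2
      rw [lin a x 1 1]
      linear_combination e2
    funext s
    fin_cases s
    · simpa [P, Q, Matrix.mulVec, dotProduct, Fin.sum_univ_two] using h1 0 1
    · simpa [P, Q, Matrix.mulVec, dotProduct, Fin.sum_univ_two] using h1 1 1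

end Pool.Agent.Results.MP_b3b2bb_nt.Eigen
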